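import Pool.Agent.H96.AL.Targets4

/-!
# AL board, module CT: gradient curves of a conical function
-/

open Topology Set Filter Real Pool.Agent.H96.AL

namespace Pool.Agent.H14.AL

theorem ct (hDS : T_DS) : T_CT := by
  intro X _ F x Λ c ρ hΛ hc hρ hSC hF hFx hcone
  refine ⟨min ρ (c / (Λ + 1)), lt_min hρ (by positivity), min_le_left _ _, ?_⟩
  intro L α hα h0
  set ρ' := min ρ (c / (Λ + 1)) with hρ'
  set Θ : X → ℝ := fun z => F z + Λ / 2 * dist z x ^ 2 with hΘ
  have hΘc : Continuous Θ := by fun_prop
  have hDG : ∀ z, DGe F z x (-Θ z) := by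
    intro z
    have h := hDS X Λ F hSC z x
    have e : F x - F z - Λ / 2 * dist z x ^ 2 = -Θ z := by
      rw [hFx, hΘ]
      ring
    rwa [e] at h
  -- the estimate of Θ near x
  have hΘle : ∀ z, dist x z < ρ' → Θ z ≤ -(c / 2) * dist x z := by
    intro z hz
    have h1 := hcone z (lt_of_lt_of_le hz (min_le_left _ _))
    have h2 : dist x z < c / (Λ + 1) := lt_of_lt_of_le hz (min_le_right _ _)
    have h3 : (Λ + 1) * dist x z < c := by
      rw [lt_div_iff₀ (by positivity)] at h2
      linarith
    have h4 : 0 ≤ dist x z := dist_nonneg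
    rw [hΘ]
    simp only
    rw [dist_comm z x]
    nlinarith [mul_nonneg h4 h4]
  set w : ℝ → ℝ := fun t => dist x (α t) with hw
  have hαc : ContinuousOn α (Ici 0) := by
    have hlip : LipschitzOnWith (Real.toNNReal L) α (Ici 0) := by
      apply LipschitzOnWith.of_dist_le_mul
      intro s hs t ht
      refine (hα.lip s t hs ht).trans ?_
      rw [Real.dist_eq]
      exact mul_le_mul_of_nonneg_right (Real.le_coe_toNNReal L) (abs_nonneg _)
    exact hlip.continuousOn
  have hwc : ContinuousOn w (Ici 0) := by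
    have h1 : Continuous fun z : X => dist x z := by fun_prop
    exact h1.comp_continuousOn hαc
  -- the basic inequality on intervals where the distance is small
  have key : ∀ s t b : ℝ, 0 ≤ s → s ≤ t → (∀ r ∈ Icc s t, Θ (α r) ≤ b) →
      w t ^ 2 - w s ^ 2 ≤ 2 * (b * (t - s)) := by
    intro s t b hs hst hb
    have h1 := hα.evi x Θ hΘc hDG s t hs hst
    have h2 : ∫ r in s..t, Θ (α r) ≤ ∫ _ in s..t, b := by
      apply intervalIntegral.integral_mono_on hst
      · apply ContinuousOn.intervalIntegrable
        rw [uIcc_of_le hst]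
        exact hΘc.comp_continuousOn (hαc.mono fun r hr => hs.trans hr.1)
      · exact intervalIntegrable_const
      · exact hb
    rw [intervalIntegral.integral_const, smul_eq_mul] at h2
    simp only [hw]
    rw [dist_comm x (α t), dist_comm x (α s)]
    linarith
  -- (i)
  have hi : ∀ t, 0 ≤ t → w t ≤ w 0 := by
    intro t ht
    have hsub : Icc 0 t ⊆ {r | w r ≤ w 0} := by
      apply IsClosed.Icc_subset_of_forall_exists_gt
      · have : {r | w r ≤ w 0} ∩ Icc 0 t = Icc 0 t ∩ w ⁻¹' Iic (w 0) := by
          ext r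
          simp only [mem_inter_iff, mem_ofPred_eq, mem_preimage, mem_Iic]
          tauto
        rw [this]
        exact (hwc.mono fun r hr => hr.1).preimage_isClosed_of_isClosed isClosed_Icc isClosed_Iic
      · exact le_refl (w 0)
      · intro r hr y hy
        have hr0 : 0 ≤ r := hr.2.1
        have hwr : w r < ρ' := lt_of_le_of_lt hr.1 h0
        have hev : ∀ᶠ u in 𝓝[Ici 0] r, w u < ρ' :=
          (hwc r hr0).eventually (gt_mem_nhds hwr)
        rw [eventually_nhdsWithin_iff, Metric.eventually_nhds_iff] at hev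
        obtain ⟨ε, hε, hev⟩ := hev
        obtain ⟨u, hu1, hu2⟩ : ∃ u, r < u ∧ u < min y (r + ε) :=
          exists_between (lt_min hy (by linarith))
        refine ⟨u, ?_, hu1, (hu2.le.trans (min_le_left _ _))⟩
        have h1 := key r u 0 hr0 hu1.le (by
          intro v hv
          have h2 : w v < ρ' := by
            apply hev
            · rw [Real.dist_eq, abs_of_nonneg (by linarith [hv.1])]
              have := hu2.trans_le (min_le_right _ _)
              linarith [hv.2]
            · exact hr0.trans hv.1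
          refine (hΘle (α v) h2).trans ?_
          have : 0 ≤ dist x (α v) := dist_nonneg
          nlinarith)
        have h3 : w u ≤ w r := by
          have h4 : w u ^ 2 ≤ w r ^ 2 := by linarith
          exact le_of_sq_le_sq h4 dist_nonneg
        exact h3.trans hr.1
    exact hsub ⟨ht, le_refl t⟩
  have hsmall : ∀ t, 0 ≤ t → w t < ρ' := fun t ht => lt_of_le_of_lt (hi t ht) h0
  have hw0 : ∀ t, 0 ≤ w t := fun t => dist_nonneg
  -- (ii)
  have hmono : ∀ s t, 0 ≤ s → s ≤ t → w t ≤ w s := by
    intro s t hs hst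
    have h1 := key s t 0 hs hst (by
      intro v hv
      refine (hΘle (α v) (hsmall v (hs.trans hv.1))).trans ?_
      have : 0 ≤ dist x (α v) := dist_nonneg
      nlinarith)
    have h4 : w t ^ 2 ≤ w s ^ 2 := by linarith
    exact le_of_sq_le_sq h4 (hw0 s)
  have hdec : ∀ s t, 0 ≤ s → s ≤ t → w t ^ 2 ≤ w s ^ 2 - c * w t * (t - s) := by
    intro s t hs hst
    have h1 := key s t (-(c / 2) * w t) hs hst (by
      intro v hv
      refine (hΘle (α v) (hsmall v (hs.trans hv.1))).trans ?_
      have := hmono v t (hs.trans hv.1) hv.2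
      have h2 : w v = dist x (α v) := rfl
      rw [← h2]
      nlinarith)
    linarith
  -- (iii)
  have hhalf : ∀ s a, 0 ≤ s → 2 * w s / c ≤ a → w (s + a) ≤ w s / 2 := by
    intro s a hs ha
    by_contra hcon
    push Not at hcon
    have ha0 : 0 ≤ a := le_trans (by have := hw0 s; positivity) ha
    have h1 := hdec s (s + a) hs (by linarith)
    have h2 := hmono s (s + a) hs (by linarith)
    have h3 : 2 * w s ≤ a * c := by rwa [div_le_iff₀ hc] at ha
    have h4 : 0 < w (s + a) := lt_of_le_of_lt (by have := hw0 s; positivity) hcon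
    have h5 : 0 < w s := lt_of_lt_of_le h4 h2
    have h6 : c * w (s + a) * (s + a - s) = w (s + a) * (a * c) := by ring
    rw [h6] at h1
    have h7 : w (s + a) * (2 * w s) ≤ w (s + a) * (a * c) :=
      mul_le_mul_of_nonneg_left h3 h4.le
    nlinarith
  have hind : ∀ n : ℕ, ∀ t, 4 * w 0 / c * (1 - 1 / 2 ^ n) ≤ t → w t ≤ w 0 / 2 ^ n := by
    intro n
    induction n with
    | zero =>
      intro t ht
      have : 0 ≤ t := by simpa using ht
      simpa using hi t this
    | succ n ih =>
      intro t ht
      have hp : (0 : ℝ) < 2 ^ n := by positivity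
      have hp1 : (1 : ℝ) / 2 ^ n ≤ 1 := by
        rw [div_le_one hp]
        exact one_le_pow₀ (by norm_num)
      have hq : 0 ≤ 4 * w 0 / c := by have := hw0 0; positivity
      have hs0 : 0 ≤ 4 * w 0 / c * (1 - 1 / 2 ^ n) := mul_nonneg hq (by linarith)
      have h1 := ih (4 * w 0 / c * (1 - 1 / 2 ^ n)) le_rfl
      have h2 := hhalf (4 * w 0 / c * (1 - 1 / 2 ^ n)) (t - 4 * w 0 / c * (1 - 1 / 2 ^ n)) hs0 (by
        have h3 : 2 * w (4 * w 0 / c * (1 - 1 / 2 ^ n)) / c ≤ 2 * (w 0 / 2 ^ n) / c := by
          apply div_le_div_of_nonneg_right _ hc.le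
          linarith
        refine h3.trans ?_
        have h4 : 4 * w 0 / c * (1 - 1 / 2 ^ (n + 1)) - 4 * w 0 / c * (1 - 1 / 2 ^ n) =
            2 * (w 0 / 2 ^ n) / c := by
          rw [pow_succ]
          field_simp
          ring
        linarith)
      rw [add_sub_cancel] at h2
      refine h2.trans ?_
      rw [pow_succ, ← div_div]
      linarith
  intro t ht
  refine ⟨hi t ht, fun htt => ?_⟩
  have hlim : w t ≤ 0 := by
    have h1 : ∀ n : ℕ, w t ≤ w 0 / 2 ^ n := by
      intro n
      apply hind n
      refine le_trans ?_ htt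
      have hp1 : (0 : ℝ) ≤ 1 / 2 ^ n := by positivity
      have hq : 0 ≤ 4 * w 0 / c := by have := hw0 0; positivity
      have h2 : 4 * w 0 / c ≤ 4 * ρ' / c := by
        apply div_le_div_of_nonneg_right _ hc.le
        have : w 0 < ρ' := h0
        linarith
      nlinarith
    have h2 : Tendsto (fun n : ℕ => w 0 / 2 ^ n) atTop (𝓝 0) := by
      have h3 := (tendsto_pow_atTop_nhds_zero_of_lt_one (r := (1 / 2 : ℝ)) (by norm_num)
        (by norm_num)).const_mul (w 0)
      rw [mul_zero] at h3
      refine h3.congr fun n => ?_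
      rw [one_div, inv_pow, div_eq_mul_inv]
    exact ge_of_tendsto' h2 h1
  exact (dist_eq_zero.mp (le_antisymm hlim dist_nonneg)).symm

end Pool.Agent.H14.AL
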