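import Pool.Agent.H96.AL.Targets4

/-!
# AL board, module GT
-/

open Topology Set Filter Real Pool.Agent.H96.AL

namespace Pool.Agent.H14.AL

theorem gt : T_AS → T_RS → T_RT → T_TR → T_Geometry := by
  intro hAS hRS hRT hTR X _ hX
  obtain ⟨k, hk, hcb⟩ := hX.curvature
  obtain ⟨Y, _, e, he⟩ := hRS X k hk
  obtain ⟨hc1, hc2, h3, h4⟩ := hRT X Y k e hk he
  obtain ⟨⟨D, hD⟩, hdim⟩ := h3 hX hcb
  obtain ⟨m, Z, hZ, hs⟩ := hAS Y D hD hdim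
  let e' : X ≃ₜ Y := ⟨e, hc1, hc2⟩
  refine ⟨m, fun j => e' ⁻¹' Z j, hTR X Y e' m Z hZ, fun j => ?_⟩
  have hpre : (e' ⁻¹' Z (j + 1)) \ (e' ⁻¹' Z j) = e ⁻¹' (Z (j + 1) \ Z j) := rfl
  rcases hs j with h | ⟨y, h⟩
  · left
    show (e' ⁻¹' Z (j + 1)) \ (e' ⁻¹' Z j) = ∅
    rw [hpre, h, preimage_empty]
  · right
    refine ⟨e.symm y, ?_⟩
    show (e' ⁻¹' Z (j + 1)) \ (e' ⁻¹' Z j) = stratum (e.symm y)
    have h5 := h4 (e.symm y)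
    rw [e.apply_symm_apply] at h5
    rw [hpre, h, h5, preimage_image_eq _ e.injective]

end Pool.Agent.H14.AL
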